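import Pool.Agent.N197.Pln.QDefs

/-!
# Curves on the Hirzebruch surfaces

The Hirzebruch surface `F_e`, `e ≥ 1`, is a bundle of projective lines over `P¹`, with the negative section
`C₀`, `C₀² = -e`, and the fibre `F`. Let `s` be the coordinate on the base and `t` the coordinate on the
fibres, such that `C₀` is given by `t = ∞`. The sections of the divisor `d C₀ + b F` (with the poles on `C₀` and on
the fibre `s = ∞`) are the polynomials `f (t, s)` all of whose monomials `t ^ j s ^ i` satisfy `j ≤ d` and
`i + e j ≤ b`.
-/

namespace Pool.Agent.L7h69.Scr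

open MvPolynomial

/-- `f ≠ 0` is a section of `d C₀ + b F` on the Hirzebruch surface `F_e`, where `e d ≤ b` and `b > 0`. This is
true for all effective divisors which do not contain `C₀`. The variable `0` is the coordinate on the
fibres, the variable `1` is the coordinate on the base. -/
structure IsScrollCurve (e : ℕ) (f : MvPolynomial (Fin 2) ℂ) (d b : ℕ) : Prop where
  ne_zero : f ≠ 0
  pos : 0 < b
  no_section : e * d ≤ b
  monomials : ∀ m ∈ f.support, m 0 ≤ d ∧ m 1 + e * m 0 ≤ b

end Pool.Agent.L7h69.Scr
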