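import Pool.Agent.L7h69.Scr.Defs
import Pool.Agent.N197.Pln.QMain

/-!
# Abelian covers of the Hirzebruch surfaces
-/

set_option autoImplicit false

namespace Pool.Agent.L7h69.Scr

open MvPolynomial Pool.Agent.N197.Pln

/-- the homogenisation -/
noncomputable def homg (b : ℕ) (f : MvPolynomial (Fin 2) ℂ) : MvPolynomial (Fin 3) ℂ :=
  ∑ m ∈ f.support, C (coeff m f) * (X 0 ^ m 0 * X 1 ^ m 1 * X 2 ^ (b - (m 0 + m 1)))

theorem aeval_eq_sum {Ω : Type} [Field Ω] [Algebra ℂ Ω] (v : Fin 2 → Ω) (f : MvPolynomial (Fin 2) ℂ) :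
    aeval v f = ∑ m ∈ f.support, algebraMap ℂ Ω (coeff m f) * (v 0 ^ m 0 * v 1 ^ m 1) := by
  rw [aeval_def, eval₂_eq']
  apply Finset.sum_congr rfl
  intro m _
  rw [Fin.prod_univ_two]

theorem aeval_homg {Ω : Type} [Field Ω] [Algebra ℂ Ω] (x y : Ω) (b : ℕ)
    (f : MvPolynomial (Fin 2) ℂ) : aeval ![x, y, 1] (homg b f) = aeval ![x, y] f := by
  rw [aeval_eq_sum]
  unfold homg
  rw [map_sum]
  apply Finset.sum_congr rfl
  intro m _
  simp [algebraMap_eq]

theorem homg_homogeneous {b : ℕ} {f : MvPolynomial (Fin 2) ℂ}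
    (h : ∀ m ∈ f.support, m 0 + m 1 ≤ b) : (homg b f).IsHomogeneous b := by
  unfold homg
  apply IsHomogeneous.sum
  intro m hm
  have h1 : b = 0 + (m 0 + m 1 + (b - (m 0 + m 1))) := by
    have := h m hm
    omega
  rw [h1]
  conv_lhs => rw [← h1]
  refine (isHomogeneous_C _ _).mul (((isHomogeneous_X_pow _ _).mul (isHomogeneous_X_pow _ _)).mul
    (isHomogeneous_X_pow _ _))

theorem homg_ne_zero {b : ℕ} {f : MvPolynomial (Fin 2) ℂ} (hf : f ≠ 0) : homg b f ≠ 0 := by
  intro h0
  obtain ⟨Ω, _, _, _, s, t, hst⟩ := exists_field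
  have h := aeval_homg s t b f
  rw [h0, map_zero] at h
  exact hf ((injective_iff_map_eq_zero _).mp hst f h.symm)

variable {ι : Type} [Fintype ι] {n : ℕ} [NeZero n]

theorem homg_plane {f : MvPolynomial (Fin 2) ℂ} {d b : ℕ} (h : IsScrollCurve 1 f d b) :
    IsPlaneCurve (homg b f) b where
  pos := h.pos
  homogeneous := homg_homogeneous fun m hm => by
    have := (h.monomials m hm).2
    omega
  ne_zero := homg_ne_zero h.ne_zero

/-- the covers of the plane, in affine coordinates -/
theorem of_plane {f : ι → MvPolynomial (Fin 2) ℂ} {b : ι → ℕ} {a : ι → ZMod n}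
    (h : DominatedByCurves n (fun i => homg (b i) (f i)) a) : AffineDominatedByCurves n f a := by
  obtain ⟨Ω, _, _, K₁, K₂, hK, x, hx, y, hy, z, hz, hind, hval⟩ := h
  refine ⟨Ω, inferInstance, inferInstance, K₁, K₂, hK, x, hx, y, hy, z, hz, hind, ?_⟩
  rw [hval]
  apply Finset.prod_congr rfl
  intro i _
  rw [aeval_homg]

/-- removing the negative section -/
theorem of_option {f : ι → MvPolynomial (Fin 2) ℂ} {a : ι → ZMod n} {a₀ : ZMod n}
    (h : AffineDominatedByCurves n (fun o : Option ι => o.elim 1 f) (fun o => o.elim a₀ a)) :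
    AffineDominatedByCurves n f a := by
  obtain ⟨Ω, _, _, K₁, K₂, hK, x, hx, y, hy, z, hz, hind, hval⟩ := h
  refine ⟨Ω, inferInstance, inferInstance, K₁, K₂, hK, x, hx, y, hy, z, hz, hind, ?_⟩
  rw [hval, Fintype.prod_option]
  simp

theorem val_add_neg (a₀ : ZMod n) : ((a₀.val : ℚ) / n) + (((-a₀).val : ℚ) / n) =
    if a₀ = 0 then 0 else 1 := by
  have hn : (n : ℚ) ≠ 0 := Nat.cast_ne_zero.mpr (NeZero.ne n)
  rw [ZMod.neg_val]
  by_cases h : a₀ = 0
  · simp [h]
  · rw [if_neg h, if_neg h, Nat.cast_sub (ZMod.val_lt a₀).le]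
    field_simp
    ring

theorem lineDegree_mono {d b : ι → ℕ} {e : ℕ} (h : ∀ i, e * d i ≤ b i) (a : ι → ZMod n) :
    (e : ℚ) * lineDegree n d a ≤ lineDegree n b a := by
  have hn : (0 : ℚ) < n := Nat.cast_pos.mpr (Nat.pos_of_ne_zero (NeZero.ne n))
  unfold lineDegree
  rw [Finset.mul_sum]
  apply Finset.sum_le_sum
  intro i _
  rw [← mul_div_assoc, ← mul_assoc]
  apply div_le_div_of_nonneg_right _ hn.le
  apply mul_le_mul_of_nonneg_right _ (Nat.cast_nonneg _)
  exact_mod_cast h i

/-- the main theorem -/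
theorem main {e : ℕ} (he : 1 ≤ e) {f : ι → MvPolynomial (Fin 2) ℂ} {d b : ι → ℕ}
    (hf : ∀ i, IsScrollCurve e (f i) (d i) (b i)) {a : ι → ZMod n} {a₀ : ZMod n}
    (hd : ∑ i, d i • a i + a₀ = 0) (hb : ∑ i, b i • a i = 0)
    (h1 : lineDegree n d a + (a₀.val : ℚ) / n ≤ 1 ∨ lineDegree n b a ≤ e + 1)
    (h2 : lineDegree n d (fun i => -(a i)) + ((-a₀).val : ℚ) / n ≤ 1 ∨
      lineDegree n b (fun i => -(a i)) ≤ e + 1)
    (hexc : ¬ (e = 2 ∧ a₀ ≠ 0 ∧ ∑ i ∈ Finset.univ.filter (fun i => a i ≠ 0), d i = 3 ∧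
      ∑ i ∈ Finset.univ.filter (fun i => a i ≠ 0), b i = 6)) :
    AffineDominatedByCurves n f a := by
  classical
  have hn : (0 : ℚ) < n := Nat.cast_pos.mpr (Nat.pos_of_ne_zero (NeZero.ne n))
  set A : ℕ := ∑ i ∈ Finset.univ.filter (fun i => a i ≠ 0), d i with hA
  set B : ℕ := ∑ i ∈ Finset.univ.filter (fun i => a i ≠ 0), b i with hB
  set δ : ℕ := if a₀ = 0 then 0 else 1 with hδ
  have eA := lineDegree_add_neg d a
  have eB := lineDegree_add_neg b a
  rw [← hA] at eA
  rw [← hB] at eB
  have e0 := val_add_neg a₀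
  have hδ' : (if a₀ = 0 then (0 : ℚ) else 1) = (δ : ℚ) := by
    rw [hδ]
    split_ifs <;> simp
  rw [hδ'] at e0
  have m1 := lineDegree_mono (n := n) (fun i => (hf i).no_section) a
  have m2 := lineDegree_mono (n := n) (fun i => (hf i).no_section) (fun i => -(a i))
  have heQ : (1 : ℚ) ≤ e := by exact_mod_cast he
  have v1 : ((a₀.val : ℚ) / n) < 1 := by
    rw [div_lt_one hn]
    exact_mod_cast ZMod.val_lt a₀
  have v2 : (((-a₀).val : ℚ) / n) < 1 := by
    rw [div_lt_one hn]
    exact_mod_cast ZMod.val_lt (-a₀)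
  by_cases hle : A + δ ≤ 3
  · -- at most three points on the fibres
    refine of_option (a₀ := a₀) (fibre_three (d := fun o : Option ι => o.elim 1 d) ?_ ?_ ?_)
    · intro o
      cases o with
      | none => simp
      | some i =>
        simp only [Option.elim_some]
        rw [degreeOf_le_iff]
        exact fun m hm => ((hf i).monomials m hm).1
    · rw [Fintype.sum_option]
      simp only [Option.elim_none, Option.elim_some, one_smul]
      rw [add_comm]
      exact hd
    · rw [Finset.sum_filter, Fintype.sum_option]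
      simp only [Option.elim_none, Option.elim_some]
      rw [← Finset.sum_filter, ← hA]
      have : (if a₀ ≠ 0 then 1 else 0) = δ := by
        rw [hδ]
        split_ifs <;> simp_all
      rw [this]
      omega
  · have hge : (4 : ℚ) ≤ A + δ := by
      have : 4 ≤ A + δ := by omega
      exact_mod_cast this
    -- both degrees along the base are small
    have hb1 : lineDegree n b a ≤ e + 1 := by
      rcases h1 with h1 | h1
      · exfalso
        rcases h2 with h2 | h2
        · linarith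
        · nlinarith
      · exact h1
    have hb2 : lineDegree n b (fun i => -(a i)) ≤ e + 1 := by
      rcases h2 with h2 | h2
      · exfalso
        nlinarith
      · exact h2
    have hBle : (B : ℚ) ≤ 2 * e + 2 := by linarith
    have hBle' : B ≤ 2 * e + 2 := by exact_mod_cast hBle
    have hAB : e * A ≤ B := by
      rw [hA, hB, Finset.mul_sum]
      exact Finset.sum_le_sum fun i _ => (hf i).no_section
    have hδ1 : δ ≤ 1 := by
      rw [hδ]
      split_ifs <;> omega
    have hA3 : 3 ≤ A := by omega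
    have he2 : e ≤ 2 := by nlinarith
    rcases (show e = 1 ∨ e = 2 by omega) with rfl | rfl
    · refine of_plane (b := b) (dominated (d := b) (fun i => homg_plane (hf i)) hb ?_ ?_)
      · norm_num at hb1
        exact hb1
      · norm_num at hb2
        exact hb2
    · exfalso
      apply hexc
      have hA' : A = 3 := by omega
      have hB' : B = 6 := by omega
      refine ⟨rfl, ?_, hA', hB'⟩
      intro h0
      rw [hδ, if_pos h0] at hle
      omega

end Pool.Agent.L7h69.Scr
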